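import Pool.Agent.Run7.h197.Q.Param

/-!
Parameters which are close to an algebraic point of the projective line at an archimedean place and
for which the pole orders of a rational function are divisible by a large number.
-/

set_option autoImplicit false

namespace Run7.h197.N

open NumberField IsDedekindDomain Finset Pool.Agent.H691R3 Pool.Agent.Y673.Loc Pool.Agent.Y673.Cnt
open Run7.h197.ST Height Pool.Agent.Y673.Loc.ZV Pool.Agent.K4H56.IF Polynomial Run7.h197.FMS Run7.h197.Q

/-- the polynomial `s ^ m P(a + 1 / s)` -/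
noncomputable def rev {R : Type} [Field R] (P : R[X]) (m : ℕ) (a : R) : R[X] :=
  ∑ i ∈ range (m + 1), C (P.coeff i) * (C a * X + 1) ^ i * X ^ (m - i)

section
variable {R R' : Type} [Field R] [Field R']

lemma rev_map (f : R →+* R') (P : R[X]) (m : ℕ) (a : R) :
    (rev P m a).map f = rev (P.map f) m (f a) := by
  unfold rev
  rw [Polynomial.map_sum]
  refine Finset.sum_congr rfl fun i _ => ?_
  simp

lemma rev_eval_ne {P : R[X]} {m : ℕ} (hm : P.natDegree ≤ m) (a : R) {s : R} (hs : s ≠ 0) :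
    (rev P m a).eval s = s ^ m * P.eval (a + s⁻¹) := by
  unfold rev
  rw [eval_finsetSum, eval_eq_sum_range' (Nat.lt_succ_of_le hm), Finset.mul_sum]
  refine Finset.sum_congr rfl fun i hi => ?_
  have hi' : i ≤ m := Nat.lt_succ_iff.1 (Finset.mem_range.1 hi)
  simp only [eval_mul, eval_C, eval_pow, eval_add, eval_X, eval_one]
  have h1 : a * s + 1 = s * (a + s⁻¹) := by field_simp
  have h2 : s ^ m = s ^ i * s ^ (m - i) := by rw [← pow_add, Nat.add_sub_cancel' hi']
  rw [h1, mul_pow, h2]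
  ring

lemma rev_eval_zero (P : R[X]) (m : ℕ) (a : R) : (rev P m a).eval 0 = P.coeff m := by
  unfold rev
  rw [eval_finsetSum, Finset.sum_eq_single m]
  · simp
  · intro i hi hne
    have hi' : i < m := by
      have := Finset.mem_range.1 hi
      omega
    simp only [eval_mul, eval_C, eval_pow, eval_add, eval_X, eval_one]
    rw [zero_pow (by omega), mul_zero]
  · intro h
    exact absurd (Finset.mem_range.2 (Nat.lt_succ_self m)) h

lemma rev_ne_zero [Infinite R] {P : R[X]} (hP : P ≠ 0) {m : ℕ} (hm : P.natDegree ≤ m) (a : R) :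
    rev P m a ≠ 0 := by
  intro h0
  apply hP
  have h1 : (X - C a) * P = 0 := by
    apply Polynomial.funext
    intro y
    rw [eval_mul, eval_sub, eval_X, eval_C, eval_zero]
    by_cases hy : y = a
    · rw [hy, sub_self, zero_mul]
    · have hya : y - a ≠ 0 := sub_ne_zero.2 hy
      have h2 := rev_eval_ne hm a (inv_ne_zero hya)
      rw [h0, eval_zero, inv_inv] at h2
      have h3 : a + (y - a) = y := by ring
      rw [h3] at h2
      have h4 : P.eval y = 0 := by
        rcases mul_eq_zero.1 h2.symm with h | h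
        · exact absurd h (pow_ne_zero _ (inv_ne_zero hya))
        · exact h
      rw [h4, mul_zero]
  rcases mul_eq_zero.1 h1 with h | h
  · exact absurd h (X_sub_C_ne_zero a)
  · exact h

end

section
variable {K : Type} [Field K] [NumberField K]

/-- poles of `F / G` on the complex projective line -/
def Pole (F G : K[X]) (φ : K →+* ℂ) : Option ℂ → Prop
  | none => G.natDegree < F.natDegree
  | some b => (G.map φ).eval b = 0

/-- at least two poles of `F / G` other than `a` -/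
def TwoPoles (F G : K[X]) (φ : K →+* ℂ) (a : Option ℂ) : Prop :=
  ∃ b c : Option ℂ, b ≠ c ∧ b ≠ a ∧ c ≠ a ∧ Pole F G φ b ∧ Pole F G φ c

/-- close to the point `a` of the projective line -/
def Near (φ : K →+* ℂ) (M : ℕ) (t : K) : Option ℂ → Prop
  | none => mulHeight₁ t ≤ ‖φ t‖ ^ M
  | some a => mulHeight₁ t * ‖φ t - a‖ ^ M ≤ 1

omit [NumberField K] in
/-- a polynomial with two complex roots -/
lemma not_power (G : K[X]) (hG : G ≠ 0) (φ : K →+* ℂ) {b c : ℂ} (hbc : b ≠ c)
    (hb : (G.map φ).eval b = 0) (hc : (G.map φ).eval c = 0) :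
    ¬ ∃ (a b : K) (m : ℕ), G = C a * (X - C b) ^ m := by
  rintro ⟨a, β, m, rfl⟩
  have ha : a ≠ 0 := by
    rintro rfl
    apply hG
    rw [C_0, zero_mul]
  have key : ∀ z : ℂ, ((C a * (X - C β) ^ m).map φ).eval z = 0 → z = φ β := by
    intro z hz
    rw [Polynomial.map_mul, Polynomial.map_pow, Polynomial.map_sub, Polynomial.map_C,
      Polynomial.map_X, Polynomial.map_C, eval_mul, eval_pow, eval_sub, eval_C, eval_X, eval_C] at hz
    rcases mul_eq_zero.1 hz with h | h
    · exact absurd h ((map_ne_zero φ).2 ha)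
    · have hm0 : m ≠ 0 := by
        rintro rfl
        rw [pow_zero] at h
        exact one_ne_zero h
      exact sub_eq_zero.1 ((pow_eq_zero_iff hm0).1 h)
  exact hbc ((key b hb).trans (key c hc).symm)

/-- **an algebraic point in an extension** -/
theorem near_ext (L : Type) [Field L] [NumberField L] [Algebra K L] (ψ : L →+* ℂ) (a : L)
    (F G : K[X]) (hcop : IsCoprime F G) (hG : G ≠ 0)
    (h2 : TwoPoles F G (ψ.comp (algebraMap K L)) (some (ψ a)))
    (S : Set (HeightOneSpectrum (𝓞 K))) (hS : S.Finite) (q M B : ℕ) (hq : q ≠ 0) (hB : 1 ≤ B) :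
    ∃ n₀ : ℕ, {t : K | mulHeight₁ t * ‖ψ (algebraMap K L t) - ψ a‖ ^ M ≤ 1 ∧ G.eval t ≠ 0 ∧
      ∃ n : ℕ, n₀ ≤ n ∧ ∀ v ∉ S, (adv K v).v (F.eval t / G.eval t) < 0 →
        (n : ℤ) ∣ (B : ℤ) * (adv K v).v (F.eval t / G.eval t)}.Finite := by
  classical
  obtain ⟨φ, hφ⟩ : ∃ φ : K →+* L, φ = algebraMap K L := ⟨_, rfl⟩
  rw [← hφ] at h2
  obtain ⟨m, hm⟩ : ∃ m, m = max F.natDegree G.natDegree := ⟨_, rfl⟩
  have hFm : (F.map φ).natDegree ≤ m := by
    rw [natDegree_map, hm]
    exact le_max_left _ _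
  have hGm : (G.map φ).natDegree ≤ m := by
    rw [natDegree_map, hm]
    exact le_max_right _ _
  have hFm' : ((F.map φ).map ψ).natDegree ≤ m := by rwa [natDegree_map]
  have hGm' : ((G.map φ).map ψ).natDegree ≤ m := by rwa [natDegree_map]
  have hGφ : G.map φ ≠ 0 := Polynomial.map_ne_zero hG
  obtain ⟨F', hF'⟩ : ∃ F', F' = rev (F.map φ) m a := ⟨_, rfl⟩
  obtain ⟨G', hG'⟩ : ∃ G', G' = rev (G.map φ) m a := ⟨_, rfl⟩
  have hG'0 : G' ≠ 0 := by rw [hG']; exact rev_ne_zero hGφ hGm a
  -- the poles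
  have hpole : ∀ b : Option ℂ, b ≠ some (ψ a) → Pole F G (ψ.comp φ) b →
      (G'.map ψ).eval (b.elim 0 fun z => (z - ψ a)⁻¹) = 0 := by
    intro b hb hp
    rw [hG', rev_map]
    rcases b with _ | z
    · show (rev ((G.map φ).map ψ) m (ψ a)).eval 0 = 0
      rw [rev_eval_zero]
      apply coeff_eq_zero_of_natDegree_lt
      rw [natDegree_map, natDegree_map]
      have h1 : G.natDegree < F.natDegree := hp
      rw [hm]
      exact lt_of_lt_of_le h1 (le_max_left _ _)
    · show (rev ((G.map φ).map ψ) m (ψ a)).eval (z - ψ a)⁻¹ = 0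
      have hz : z - ψ a ≠ 0 := sub_ne_zero.2 fun h => hb (by rw [h])
      rw [rev_eval_ne hGm' _ (inv_ne_zero hz), inv_inv]
      have h3 : ψ a + (z - ψ a) = z := by ring
      rw [h3, Polynomial.map_map]
      have h4 : (G.map (ψ.comp φ)).eval z = 0 := hp
      rw [h4, mul_zero]
  obtain ⟨b, c, hbc, hba, hca, hb, hc⟩ := h2
  have hm1 : 1 ≤ m := by
    by_contra hcon
    have hm0 : m = 0 := by omega
    have hF0 : F.natDegree = 0 := by
      have := le_max_left F.natDegree G.natDegree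
      omega
    have hG0 : G.natDegree = 0 := by
      have := le_max_right F.natDegree G.natDegree
      omega
    obtain ⟨g, hg⟩ := natDegree_eq_zero.1 hG0
    have hno : ∀ b : Option ℂ, Pole F G (ψ.comp φ) b → False := by
      rintro (_ | z) hp
      · have h1 : G.natDegree < F.natDegree := hp
        omega
      · have h1 : (G.map (ψ.comp φ)).eval z = 0 := hp
        rw [← hg, Polynomial.map_C, eval_C] at h1
        apply hG
        rw [← hg, (map_eq_zero (ψ.comp φ)).1 h1, C_0]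
    exact hno b hb
  have hcop' : IsCoprime F' G' := by
    let _ : Algebra L ℂ := ψ.toAlgebra
    rw [Polynomial.isCoprime_iff_aeval_ne_zero_of_isAlgClosed L ℂ]
    intro z
    have e : ∀ P : L[X], aeval z P = (P.map ψ).eval z := fun P => by
      rw [aeval_def, eval₂_eq_eval_map]
      rfl
    rw [e, e, hF', hG', rev_map, rev_map]
    by_cases hz : z = 0
    · rw [hz, rev_eval_zero, rev_eval_zero, coeff_map, coeff_map, coeff_map, coeff_map]
      rcases le_total F.natDegree G.natDegree with h | h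
      · right
        rw [max_eq_right h] at hm
        rw [hm]
        refine (map_ne_zero ψ).2 ((map_ne_zero φ).2 ?_)
        exact leadingCoeff_ne_zero.2 hG
      · left
        rw [max_eq_left h] at hm
        rw [hm]
        refine (map_ne_zero ψ).2 ((map_ne_zero φ).2 ?_)
        apply leadingCoeff_ne_zero.2
        rintro rfl
        rw [natDegree_zero] at hm
        omega
    · rw [rev_eval_ne hFm' _ hz, rev_eval_ne hGm' _ hz]
      have h1 : IsCoprime ((F.map φ).map ψ) ((G.map φ).map ψ) :=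
        (hcop.map (mapRingHom φ)).map (mapRingHom ψ)
      obtain ⟨x, y, hxy⟩ := h1
      have h2 := congrArg (Polynomial.eval (ψ a + z⁻¹)) hxy
      rw [eval_add, eval_mul, eval_mul, eval_one] at h2
      by_contra hcon
      push Not at hcon
      obtain ⟨c1, c2⟩ := hcon
      have hzm : z ^ m ≠ 0 := pow_ne_zero _ hz
      rw [(mul_eq_zero.1 c1).resolve_left hzm, (mul_eq_zero.1 c2).resolve_left hzm, mul_zero,
        mul_zero, add_zero] at h2
      exact zero_ne_one h2
  have hnp := not_power G' hG'0 ψ (b := b.elim 0 fun z => (z - ψ a)⁻¹)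
    (c := c.elim 0 fun z => (z - ψ a)⁻¹) (by
      intro h
      rcases b with _ | z
      · rcases c with _ | z'
        · exact hbc rfl
        · have hz' : z' - ψ a ≠ 0 := sub_ne_zero.2 fun h => hca (by rw [h])
          exact inv_ne_zero hz' h.symm
      · have hz : z - ψ a ≠ 0 := sub_ne_zero.2 fun h => hba (by rw [h])
        rcases c with _ | z'
        · exact inv_ne_zero hz h
        · apply hbc
          have h1 : z - ψ a = z' - ψ a := inv_injective h
          rw [sub_left_injective h1]) (hpole b hba hb) (hpole c hca hc)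
  obtain ⟨T, hT, hTv⟩ := above_finite L S hS
  -- the constant
  obtain ⟨k, hk⟩ := exists_two_pow ((2 : ℝ) ^ totalWeight L * mulHeight₁ a)
  obtain ⟨n₀, hfin⟩ := param F' G' hcop' hG'0 hnp T hT q (M * (Module.finrank K L + k)) B hq hB
  refine ⟨n₀, ?_⟩
  have hinj : Function.Injective fun t : K => (φ t - a)⁻¹ := by
    intro x y hxy
    exact φ.injective (sub_left_injective (inv_injective hxy))
  have hf1 : {t : K | mulHeight₁ t ≤ 2}.Finite := NumberField.finite_setOfPred_mulHeight₁_le K _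
  have hf2 : {t : K | φ t = a}.Finite := by
    apply Set.Subsingleton.finite
    intro x hx y hy
    exact φ.injective (Eq.trans hx (Eq.symm hy))
  refine ((hf1.union hf2).union (hfin.preimage hinj.injOn)).subset ?_
  rintro t ⟨hnear, hGt, n, hn, hd⟩
  by_cases h1 : mulHeight₁ t ≤ 2
  · left; left; exact h1
  by_cases h3 : φ t = a
  · left; right; exact h3
  right
  push Not at h1
  rw [← hφ] at hnear
  have hta : φ t - a ≠ 0 := sub_ne_zero.2 h3
  have hs0 : (φ t - a)⁻¹ ≠ 0 := inv_ne_zero hta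
  have hat : a + ((φ t - a)⁻¹)⁻¹ = φ t := by rw [inv_inv]; ring
  have e1 : F'.eval (φ t - a)⁻¹ = (φ t - a)⁻¹ ^ m * φ (F.eval t) := by
    rw [hF', rev_eval_ne hFm _ hs0, hat, eval_map_apply]
  have e2 : G'.eval (φ t - a)⁻¹ = (φ t - a)⁻¹ ^ m * φ (G.eval t) := by
    rw [hG', rev_eval_ne hGm _ hs0, hat, eval_map_apply]
  have e3 : F'.eval (φ t - a)⁻¹ / G'.eval (φ t - a)⁻¹ = φ (F.eval t / G.eval t) := by
    rw [e1, e2, map_div₀, mul_div_mul_left _ _ (pow_ne_zero _ hs0)]
  show Adm q (M * (Module.finrank K L + k)) (φ t - a)⁻¹ ∧ G'.eval (φ t - a)⁻¹ ≠ 0 ∧ _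
  refine ⟨Or.inr ⟨ψ, ?_⟩, ?_, n, hn, fun w hw hneg => ?_⟩
  · -- the size
    have hH : mulHeight₁ (φ t - a)⁻¹ ≤ 2 ^ k * mulHeight₁ t ^ Module.finrank K L := by
      rw [mulHeight₁_inv]
      calc mulHeight₁ (φ t - a) ≤ 2 ^ totalWeight L * mulHeight₁ (φ t) * mulHeight₁ a :=
            mulHeight₁_sub_le _ _
        _ = (2 ^ totalWeight L * mulHeight₁ a) * mulHeight₁ (φ t) := by ring
        _ ≤ 2 ^ k * mulHeight₁ (φ t) := mul_le_mul_of_nonneg_right hk (mulHeight₁_nonneg _)
        _ = _ := by rw [hφ, mulHeight₁_ext]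
    have hψ : ψ (φ t) - ψ a ≠ 0 := by
      rw [← map_sub]
      exact (map_ne_zero ψ).2 hta
    have hpos : 0 < ‖ψ (φ t) - ψ a‖ ^ M := pow_pos (norm_pos_iff.2 hψ) _
    have hbig : mulHeight₁ t ≤ ‖ψ (φ t - a)⁻¹‖ ^ M := by
      rw [map_inv₀, map_sub, norm_inv, inv_pow, ← one_div, le_div_iff₀ hpos]
      exact hnear
    have hpos' : 0 ≤ mulHeight₁ t := mulHeight₁_nonneg _
    calc mulHeight₁ (φ t - a)⁻¹ ≤ 2 ^ k * mulHeight₁ t ^ Module.finrank K L := hH
      _ ≤ mulHeight₁ t ^ k * mulHeight₁ t ^ Module.finrank K L := by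
          apply mul_le_mul_of_nonneg_right _ (pow_nonneg hpos' _)
          exact pow_le_pow_left₀ (by norm_num) h1.le _
      _ = mulHeight₁ t ^ (Module.finrank K L + k) := by rw [← pow_add, add_comm]
      _ ≤ (‖ψ (φ t - a)⁻¹‖ ^ M) ^ (Module.finrank K L + k) := pow_le_pow_left₀ hpos' hbig _
      _ = _ := by rw [← pow_mul]
  · rw [e2]
    exact mul_ne_zero (pow_ne_zero _ hs0) ((map_ne_zero φ).2 hGt)
  · obtain ⟨v, hvS, e, he, hve⟩ := hTv w hw
    rw [e3, hφ, hve] at hneg ⊢
    have h1 : (adv K v).v (F.eval t / G.eval t) < 0 := by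
      by_contra hcon
      push Not at hcon
      have := mul_nonneg he.le hcon
      omega
    have h3 := Dvd.dvd.mul_left (hd v hvS h1) e
    have h4 : e * ((B : ℤ) * (adv K v).v (F.eval t / G.eval t)) =
        (B : ℤ) * (e * (adv K v).v (F.eval t / G.eval t)) := by ring
    rwa [h4] at h3

/-- **close to one algebraic point** -/
theorem param_near (F G : K[X]) (hcop : IsCoprime F G) (hG : G ≠ 0) (φ : K →+* ℂ) (a : Option ℂ)
    (ha : ∀ x, a = some x → IsAlgebraic ℚ x) (h2 : TwoPoles F G φ a)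
    (S : Set (HeightOneSpectrum (𝓞 K))) (hS : S.Finite) (q M B : ℕ) (hq : q ≠ 0) (hB : 1 ≤ B) :
    ∃ n₀ : ℕ, {t : K | Near φ M t a ∧ G.eval t ≠ 0 ∧
      ∃ n : ℕ, n₀ ≤ n ∧ ∀ v ∉ S, (adv K v).v (F.eval t / G.eval t) < 0 →
        (n : ℤ) ∣ (B : ℤ) * (adv K v).v (F.eval t / G.eval t)}.Finite := by
  classical
  rcases a with _ | x
  · obtain ⟨b, c, hbc, hb0, hc0, hb, hc⟩ := h2
    rcases b with _ | b
    · exact absurd rfl hb0
    rcases c with _ | c
    · exact absurd rfl hc0
    have hnp := not_power G hG φ (fun h => hbc (by rw [h])) hb hc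
    obtain ⟨n₀, hfin⟩ := param F G hcop hG hnp S hS q M B hq hB
    refine ⟨n₀, hfin.subset ?_⟩
    rintro t ⟨h1, h2, h3⟩
    exact ⟨Or.inr ⟨φ, h1⟩, h2, h3⟩
  · let _ : Algebra K ℂ := φ.toAlgebra
    have hx : IsIntegral K x := ((ha x rfl).isIntegral).tower_top
    have : FiniteDimensional K (IntermediateField.adjoin K {x}) :=
      IntermediateField.adjoin.finiteDimensional hx
    have : NumberField (IntermediateField.adjoin K {x}) := NumberField.of_module_finite K _
    obtain ⟨ψ, hψ⟩ : ∃ ψ : IntermediateField.adjoin K {x} →+* ℂ, ψ = algebraMap _ ℂ := ⟨_, rfl⟩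
    have hcomp : ψ.comp (algebraMap K (IntermediateField.adjoin K {x})) = φ := by
      rw [hψ]
      rfl
    have hgen : ψ (IntermediateField.AdjoinSimple.gen K x) = x := by
      rw [hψ]
      exact IntermediateField.AdjoinSimple.algebraMap_gen K x
    obtain ⟨n₀, hfin⟩ := near_ext (IntermediateField.adjoin K {x}) ψ
      (IntermediateField.AdjoinSimple.gen K x) F G hcop hG (by rw [hcomp, hgen]; exact h2) S hS q M B
      hq hB
    refine ⟨n₀, hfin.subset ?_⟩
    rintro t ⟨h1, h2, h3⟩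
    refine ⟨?_, h2, h3⟩
    have h4 : ψ (algebraMap K (IntermediateField.adjoin K {x}) t) = φ t := by
      rw [← hcomp]
      rfl
    rw [h4, hgen]
    exact h1

/-- **all kinds of parameters** -/
theorem param_all (F G : K[X]) (hcop : IsCoprime F G) (hG : G ≠ 0) (A : Finset ℂ)
    (hA : ∀ x ∈ A, IsAlgebraic ℚ x) (S : Set (HeightOneSpectrum (𝓞 K))) (hS : S.Finite)
    (q M B : ℕ) (hq : q ≠ 0) (hB : 1 ≤ B) :
    ∃ n₀ : ℕ, {t : K | (∃ (φ : K →+* ℂ) (a : Option ℂ), (∀ x, a = some x → x ∈ A) ∧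
        TwoPoles F G φ a ∧ (Near φ M t a ∨ (a = none ∧ IntN q t))) ∧ G.eval t ≠ 0 ∧
      ∃ n : ℕ, n₀ ≤ n ∧ ∀ v ∉ S, (adv K v).v (F.eval t / G.eval t) < 0 →
        (n : ℤ) ∣ (B : ℤ) * (adv K v).v (F.eval t / G.eval t)}.Finite := by
  classical
  let I := (K →+* ℂ) × Option {x // x ∈ A}
  have key : ∀ i : I, ∃ n₀ : ℕ, {t : K | (TwoPoles F G i.1 (i.2.map Subtype.val) ∧
        (Near i.1 M t (i.2.map Subtype.val) ∨ (i.2 = none ∧ IntN q t))) ∧ G.eval t ≠ 0 ∧
      ∃ n : ℕ, n₀ ≤ n ∧ ∀ v ∉ S, (adv K v).v (F.eval t / G.eval t) < 0 →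
        (n : ℤ) ∣ (B : ℤ) * (adv K v).v (F.eval t / G.eval t)}.Finite := by
    rintro ⟨φ, a⟩
    by_cases h2 : TwoPoles F G φ (a.map Subtype.val)
    swap
    · refine ⟨0, Set.finite_empty.subset ?_⟩
      rintro t ⟨⟨h3, -⟩, -⟩
      exact absurd h3 h2
    obtain ⟨n₁, h₁⟩ := param_near F G hcop hG φ (a.map Subtype.val) (by
      intro x hx
      rcases a with _ | y
      · simp at hx
      · simp only [Option.map_some, Option.some.injEq] at hx
        rw [← hx]
        exact hA _ y.2) h2 S hS q M B hq hB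
    by_cases ha : a = none
    · subst ha
      obtain ⟨b, c, hbc, hb0, hc0, hb, hc⟩ := h2
      rcases b with _ | b
      · exact absurd rfl hb0
      rcases c with _ | c
      · exact absurd rfl hc0
      have hnp := not_power G hG φ (fun h => hbc (by rw [h])) hb hc
      obtain ⟨n₂, h₂⟩ := param F G hcop hG hnp S hS q M B hq hB
      refine ⟨n₁ + n₂, (h₁.union h₂).subset ?_⟩
      rintro t ⟨⟨-, h3⟩, h4, n, hn, h5⟩
      rcases h3 with h3 | ⟨-, h3⟩
      · left
        exact ⟨h3, h4, n, by omega, h5⟩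
      · right
        exact ⟨Or.inl h3, h4, n, by omega, h5⟩
    · refine ⟨n₁, h₁.subset ?_⟩
      rintro t ⟨⟨-, h3⟩, h4, h5⟩
      rcases h3 with h3 | ⟨h3, -⟩
      · exact ⟨h3, h4, h5⟩
      · exact absurd h3 ha
  choose n₀ hn₀ using key
  refine ⟨∑ i, n₀ i, (Set.finite_iUnion hn₀).subset ?_⟩
  rintro t ⟨⟨φ, a, ha, h2, h3⟩, h4, n, hn, h5⟩
  obtain ⟨a', ha'⟩ : ∃ a' : Option {x // x ∈ A}, a'.map Subtype.val = a := by
    rcases a with _ | x
    · exact ⟨none, rfl⟩
    · exact ⟨some ⟨x, ha x rfl⟩, rfl⟩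
  rw [Set.mem_iUnion]
  refine ⟨(φ, a'), ⟨by rw [ha']; exact h2, ?_⟩, h4, n, le_trans ?_ hn, h5⟩
  · rw [ha']
    rcases h3 with h3 | ⟨h3, h6⟩
    · exact Or.inl h3
    · right
      refine ⟨?_, h6⟩
      rcases a' with _ | y
      · rfl
      · rw [h3] at ha'
        simp at ha'
  · exact Finset.single_le_sum (f := n₀) (fun _ _ => Nat.zero_le _) (Finset.mem_univ _)

end

end Run7.h197.N
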