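import Pool.Agent.Run7.h197.N.Near
import Pool.Agent.Run7.h197.Q.DynG
import Pool.Agent.Run7.h197.FMS.Main
import Mathlib.AlgebraicGeometry.EllipticCurve.VariableChange

/-!
Minimal discriminants of semistable elliptic curves in one-parameter families.
-/

set_option autoImplicit false

namespace Run7.h197.N

open NumberField IsDedekindDomain Finset Pool.Agent.H691R3 Pool.Agent.Y673.Loc Pool.Agent.Y673.Cnt
open Run7.h197.ST Height Pool.Agent.Y673.Loc.ZV Pool.Agent.K4H56.IF Polynomial Run7.h197.FMS Run7.h197.Q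

section
variable {L : Type} [Field L] [NumberField L]

/-- `W'` is a Weierstrass equation of `W`, integral at `w`, with `Δ` or `c₄` a unit at `w` -/
def Model (w : HeightOneSpectrum (𝓞 L)) (W W' : WeierstrassCurve L) : Prop :=
  (∃ C : WeierstrassCurve.VariableChange L, C • W = W') ∧
    (w.valuation L W'.a₁ ≤ 1 ∧ w.valuation L W'.a₂ ≤ 1 ∧ w.valuation L W'.a₃ ≤ 1 ∧
      w.valuation L W'.a₄ ≤ 1 ∧ w.valuation L W'.a₆ ≤ 1) ∧
    (w.valuation L W'.Δ = 1 ∨ w.valuation L W'.c₄ = 1)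

omit [NumberField L] in
lemma j_mul_Δ (W : WeierstrassCurve L) [W.IsElliptic] : W.j * W.Δ = W.c₄ ^ 3 := by
  have h : W.Δ ≠ 0 := W.isUnit_Δ.ne_zero
  unfold WeierstrassCurve.j
  rw [Units.val_inv_eq_inv_val, WeierstrassCurve.coe_Δ']
  field_simp

lemma adv_of_le {w : HeightOneSpectrum (𝓞 L)} {x : L} (hx : x ≠ 0) (h : w.valuation L x ≤ 1) :
    0 ≤ (adv L w).v x := by
  show 0 ≤ -WithZero.log (w.valuation L x)
  have h2 : w.valuation L x ≠ 0 := (Valuation.ne_zero_iff _).2 hx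
  have h3 := (WithZero.log_le_log h2 one_ne_zero).2 h
  rw [WithZero.log_one] at h3
  omega

lemma adv_of_eq {w : HeightOneSpectrum (𝓞 L)} {x : L} (h : w.valuation L x = 1) :
    (adv L w).v x = 0 := by
  show -WithZero.log (w.valuation L x) = 0
  rw [h, WithZero.log_one, neg_zero]

omit [NumberField L] in
lemma j_sub_mul_Δ (W : WeierstrassCurve L) [W.IsElliptic] : (W.j - 1728) * W.Δ = W.c₆ ^ 2 := by
  have h1 := j_mul_Δ W
  have h2 := W.c_relation
  linear_combination h1 - h2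

lemma adv_pow (w : HeightOneSpectrum (𝓞 L)) (x : L) (n : ℕ) :
    (adv L w).v (x ^ n) = n * (adv L w).v x := by
  show -WithZero.log (w.valuation L (x ^ n)) = n * (-WithZero.log (w.valuation L x))
  rw [map_pow, WithZero.log_pow]
  simp

/-- **the invariant at a place of good reduction** -/
theorem local_good {w : HeightOneSpectrum (𝓞 L)} {W W' : WeierstrassCurve L} [W.IsElliptic]
    (hm : Model w W W') (hG : (adv L w).G 0 W.j) :
    (3 : ℤ) ∣ (adv L w).v W.j ∧ (2 : ℤ) ∣ (adv L w).v (W.j - 1728) := by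
  obtain ⟨⟨C, rfl⟩, ⟨h1, h2, h3, h4, h6⟩, hu⟩ := hm
  have hj : (C • W).j = W.j := WeierstrassCurve.variableChange_j W C
  rw [← hj] at hG ⊢
  have hΔ0 : (C • W).Δ ≠ 0 := (C • W).isUnit_Δ.ne_zero
  have hjΔ := j_mul_Δ (C • W)
  have hjΔ' := j_sub_mul_Δ (C • W)
  have hΔ4 : 0 ≤ (adv L w).v (C • W).Δ := by
    apply adv_of_le hΔ0
    show (C • W).Δ ∈ (w.valuation L).integer
    have h1' : (C • W).a₁ ∈ (w.valuation L).integer := h1
    have h2' : (C • W).a₂ ∈ (w.valuation L).integer := h2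
    have h3' : (C • W).a₃ ∈ (w.valuation L).integer := h3
    have h4' : (C • W).a₄ ∈ (w.valuation L).integer := h4
    have h6' : (C • W).a₆ ∈ (w.valuation L).integer := h6
    unfold WeierstrassCurve.Δ WeierstrassCurve.b₂ WeierstrassCurve.b₄ WeierstrassCurve.b₆
      WeierstrassCurve.b₈
    have e : ∀ k : ℕ, (k : L) ∈ (w.valuation L).integer := fun k => natCast_mem _ k
    have e4 : (4 : L) ∈ (w.valuation L).integer := by exact_mod_cast e 4
    have e2 : (2 : L) ∈ (w.valuation L).integer := by exact_mod_cast e 2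
    have e8 : (8 : L) ∈ (w.valuation L).integer := by exact_mod_cast e 8
    have e9 : (9 : L) ∈ (w.valuation L).integer := by exact_mod_cast e 9
    have e27 : (27 : L) ∈ (w.valuation L).integer := by exact_mod_cast e 27
    have b2 := add_mem (pow_mem h1' 2) (mul_mem e4 h2')
    have b4 := add_mem (mul_mem e2 h4') (mul_mem h1' h3')
    have b6 := add_mem (pow_mem h3' 2) (mul_mem e4 h6')
    have b8 := sub_mem (add_mem (sub_mem (add_mem (mul_mem (pow_mem h1' 2) h6')
      (mul_mem (mul_mem e4 h2') h6')) (mul_mem (mul_mem h1' h3') h4')) (mul_mem h2' (pow_mem h3' 2)))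
      (pow_mem h4' 2)
    exact add_mem (sub_mem (sub_mem (mul_mem (neg_mem (pow_mem b2 2)) b8)
      (mul_mem e8 (pow_mem b4 3))) (mul_mem e27 (pow_mem b6 2)))
      (mul_mem (mul_mem (mul_mem e9 b2) b4) b6)
  have hΔ : (adv L w).v (C • W).Δ = 0 := by
    rcases hu with hu | hu
    · exact adv_of_eq hu
    · have hc := adv_of_eq hu
      have hc0 : (C • W).c₄ ≠ 0 := by
        intro h0
        rw [h0, map_zero] at hu
        exact zero_ne_one hu
      have hj0 : (C • W).j ≠ 0 := by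
        intro h0
        rw [h0, zero_mul] at hjΔ
        exact hc0 (pow_eq_zero_iff (by norm_num) |>.1 hjΔ.symm)
      have h5 := congrArg (adv L w).v hjΔ
      rw [(adv L w).mul' _ _ hj0 hΔ0, adv_pow, hc, mul_zero] at h5
      have h7 := hG.resolve_left hj0
      omega
  constructor
  · by_cases hj0 : (C • W).j = 0
    · rw [hj0, adv_zero]
      exact dvd_zero _
    · have h5 := congrArg (adv L w).v hjΔ
      rw [(adv L w).mul' _ _ hj0 hΔ0, adv_pow, hΔ, add_zero] at h5
      rw [h5]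
      exact Dvd.intro _ rfl
  · by_cases hj0 : (C • W).j - 1728 = 0
    · rw [hj0, adv_zero]
      exact dvd_zero _
    · have h5 := congrArg (adv L w).v hjΔ'
      rw [(adv L w).mul' _ _ hj0 hΔ0, adv_pow, hΔ, add_zero] at h5
      rw [h5]
      exact Dvd.intro _ rfl

/-- **the exponent of the minimal discriminant at a place of multiplicative reduction** -/
theorem local_dvd {w : HeightOneSpectrum (𝓞 L)} {W W' : WeierstrassCurve L} [W.IsElliptic]
    (hm : Model w W W') {n : ℕ} {x : L}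
    (hx : w.valuation L W'.Δ = w.valuation L x ^ n) (hneg : (adv L w).v W.j < 0) :
    (n : ℤ) ∣ (adv L w).v W.j := by
  obtain ⟨⟨C, rfl⟩, ⟨h1, h2, h3, h4, h6⟩, hu⟩ := hm
  have hj : (C • W).j = W.j := WeierstrassCurve.variableChange_j W C
  rw [← hj] at hneg ⊢
  have hΔ0 : (C • W).Δ ≠ 0 := (C • W).isUnit_Δ.ne_zero
  have hj0 : (C • W).j ≠ 0 := by
    intro h0
    rw [h0] at hneg
    have : (adv L w).v (0 : L) = 0 := by
      show -WithZero.log (w.valuation L 0) = 0
      simp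
    omega
  have hjΔ := j_mul_Δ (C • W)
  have hc0 : (C • W).c₄ ≠ 0 := by
    intro h0
    rw [h0] at hjΔ
    exact mul_ne_zero hj0 hΔ0 (by rw [hjΔ]; ring)
  have hval : (adv L w).v (C • W).j + (adv L w).v (C • W).Δ = 3 * (adv L w).v (C • W).c₄ := by
    rw [← (adv L w).mul' _ _ hj0 hΔ0, hjΔ, adv_pow]
    push_cast
    ring
  -- `c₄` is integral
  have hc4 : 0 ≤ (adv L w).v (C • W).c₄ := by
    apply adv_of_le hc0
    have hint : ∀ y : L, w.valuation L y ≤ 1 → y ∈ (w.valuation L).integer := fun y hy => hy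
    show (C • W).c₄ ∈ (w.valuation L).integer
    unfold WeierstrassCurve.c₄ WeierstrassCurve.b₂ WeierstrassCurve.b₄
    have e : ∀ k : ℕ, (k : L) ∈ (w.valuation L).integer := fun k => natCast_mem _ k
    have e4 : (4 : L) ∈ (w.valuation L).integer := by exact_mod_cast e 4
    have e2 : (2 : L) ∈ (w.valuation L).integer := by exact_mod_cast e 2
    have e24 : (24 : L) ∈ (w.valuation L).integer := by exact_mod_cast e 24
    exact sub_mem (pow_mem (add_mem (pow_mem h1 2) (mul_mem e4 h2)) 2)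
      (mul_mem e24 (add_mem (mul_mem e2 h4) (mul_mem h1 h3)))
  have hc : (adv L w).v (C • W).c₄ = 0 := by
    rcases hu with hu | hu
    · have := adv_of_eq hu
      omega
    · exact adv_of_eq hu
  have hx' : (adv L w).v (C • W).Δ = n * (adv L w).v x := by
    show -WithZero.log (w.valuation L (C • W).Δ) = n * (-WithZero.log (w.valuation L x))
    rw [hx, WithZero.log_pow]
    simp
  refine ⟨-(adv L w).v x, ?_⟩
  rw [hc, hx'] at hval
  linear_combination hval

end

section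
variable {K : Type} [Field K] [NumberField K]

/-- **minimal discriminants which are powers** -/
theorem disc (F G : K[X]) (hcop : IsCoprime F G) (hG : G ≠ 0) (A : Finset ℂ)
    (hA : ∀ x ∈ A, IsAlgebraic ℚ x) (q M D : ℕ) (hq : q ≠ 0) :
    ∃ (n₀ : ℕ) (E : Set K), E.Finite ∧ ∀ t ∉ E, G.eval t ≠ 0 →
      (∃ (φ : K →+* ℂ) (a : Option ℂ), (∀ x, a = some x → x ∈ A) ∧
        TwoPoles F G φ a ∧ (Near φ M t a ∨ (a = none ∧ IntN q t))) →
      ∀ (L : Type) [Field L] [NumberField L] [Algebra K L], Module.finrank K L ≤ D →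
        ∀ (W : WeierstrassCurve L) [W.IsElliptic], W.j = algebraMap K L (F.eval t / G.eval t) →
          (∀ w : HeightOneSpectrum (𝓞 L), (q : 𝓞 L) ∉ w.asIdeal → ∃ W', Model w W W') →
            ∀ n, n₀ ≤ n → ∃ w : HeightOneSpectrum (𝓞 L), (q : 𝓞 L) ∉ w.asIdeal ∧
              ∃ W', Model w W W' ∧ ∀ x : L, w.valuation L W'.Δ ≠ w.valuation L x ^ n := by
  classical
  have hqK : (q : K) ≠ 0 := Nat.cast_ne_zero.2 hq
  obtain ⟨n₀, hfin⟩ := param_all F G hcop hG A hA {v | (adv K v).v (q : K) ≠ 0} (supp_finite hqK) q M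
    D.factorial hq (Nat.factorial_pos D)
  refine ⟨n₀ + 1, _, hfin, ?_⟩
  intro t ht hGt hadm L _ _ _ hL W _ hj hss n hn
  by_contra hcon
  push Not at hcon
  apply ht
  refine ⟨hadm, hGt, n, by omega, fun v hv hneg => ?_⟩
  simp only [Set.mem_ofPred_eq, not_not] at hv
  obtain ⟨w, e, he1, heL, hwe⟩ := above_le L v
  have hqL : (q : L) ≠ 0 := Nat.cast_ne_zero.2 hq
  have hqw : (q : 𝓞 L) ∉ w.asIdeal := by
    intro hmem
    have h1 : (adv L w).v (q : L) = 0 := by
      have := hwe (q : K)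
      rw [hv, mul_zero, map_natCast] at this
      exact this
    have hq0 : (q : 𝓞 L) ≠ 0 := Nat.cast_ne_zero.2 hq
    have h2 := (le_adv_iff L w (q : 𝓞 L) hq0 1).2 (by rw [pow_one]; exact hmem)
    rw [map_natCast, h1] at h2
    omega
  obtain ⟨W', hW'⟩ := hss w hqw
  obtain ⟨x, hx⟩ := hcon w hqw W' hW'
  have hjw : (adv L w).v W.j = e * (adv K v).v (F.eval t / G.eval t) := by rw [hj, hwe]
  have hneg' : (adv L w).v W.j < 0 := by
    rw [hjw]
    have : (0 : ℤ) < e := by exact_mod_cast he1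
    nlinarith
  have h1 := local_dvd hW' hx hneg'
  rw [hjw] at h1
  obtain ⟨k, hk⟩ := Nat.dvd_factorial he1 (heL.trans hL)
  rw [hk]
  push_cast
  have h2 := Dvd.dvd.mul_left h1 (k : ℤ)
  have h3 : (k : ℤ) * ((e : ℤ) * (adv K v).v (F.eval t / G.eval t)) =
      (e : ℤ) * k * (adv K v).v (F.eval t / G.eval t) := by ring
  rwa [h3] at h2

/-- **`S`-integral parameters, arbitrary families** -/
theorem disc_int (F G : K[X]) (hcop : IsCoprime F G) (hnc : F.natDegree ≠ 0 ∨ G.natDegree ≠ 0)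
    (q : ℕ) (hq : q ≠ 0) :
    ∃ (n₀ : ℕ) (E : Set K), E.Finite ∧ ∀ t ∉ E, G.eval t ≠ 0 → IntN q t →
        ∀ (W : WeierstrassCurve K) [W.IsElliptic], W.j = F.eval t / G.eval t →
          (∀ w : HeightOneSpectrum (𝓞 K), (q : 𝓞 K) ∉ w.asIdeal → ∃ W', Model w W W') →
            ∀ n, n₀ ≤ n → ∃ w : HeightOneSpectrum (𝓞 K), (q : 𝓞 K) ∉ w.asIdeal ∧
              ∃ W', Model w W W' ∧ ∀ x : K, w.valuation K W'.Δ ≠ w.valuation K x ^ n := by
  classical
  obtain ⟨n₀, hfin⟩ := FMS.main F G hcop hnc q hq q hq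
  refine ⟨n₀ + 1, _, hfin, ?_⟩
  intro t ht hGt hint W _ hj hss n hn
  by_contra hcon
  push Not at hcon
  apply ht
  refine ⟨hint, hGt, n, by omega, fun v hv => ?_⟩
  have hqv : (q : 𝓞 K) ∉ v.asIdeal := by
    intro hmem
    have hq0 : (q : 𝓞 K) ≠ 0 := Nat.cast_ne_zero.2 hq
    have h2 := (le_adv_iff K v (q : 𝓞 K) hq0 1).2 (by rw [pow_one]; exact hmem)
    rw [map_natCast, hv] at h2
    omega
  obtain ⟨W', hW'⟩ := hss v hqv
  obtain ⟨x, hx⟩ := hcon v hqv W' hW'
  rw [← hj]
  exact ⟨fun hneg => local_dvd hW' hx hneg, fun hG => local_good hW' hG⟩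

end

end Run7.h197.N
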