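import Pool.Agent.Run7.h197.N.Near
import Pool.Agent.Run7.h197.ES.Zero

/-!
The equation `A x ^ (d m) + B y ^ (d n) = u z ^ r`.
-/

set_option autoImplicit false

namespace Run7.h197.N

open NumberField IsDedekindDomain Finset Pool.Agent.H691R3 Pool.Agent.Y673.Loc Pool.Agent.Y673.Cnt
open Run7.h197.ST Height Pool.Agent.Y673.Loc.ZV Pool.Agent.K4H56.IF Polynomial Run7.h197.FMS Run7.h197.Q
open Pool.Agent.Y913.Bk (PolyB)

lemma height_div {X Y : ℤ} (hY : Y ≠ 0) (h : IsCoprime X Y) :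
    mulHeight₁ ((X : ℚ) / (Y : ℚ)) = max |(X : ℝ)| |(Y : ℝ)| := by
  have key : ∀ X Y : ℤ, 0 < Y → IsCoprime X Y →
      mulHeight₁ ((X : ℚ) / (Y : ℚ)) = max |(X : ℝ)| |(Y : ℝ)| := by
    intro X Y hY h
    have hc : Nat.Coprime X.natAbs Y.natAbs := Int.isCoprime_iff_gcd_eq_one.1 h
    rw [Rat.mulHeight₁_eq_max, Rat.num_div_eq_of_coprime hY hc]
    have h1 : (((X : ℚ) / (Y : ℚ)).den : ℤ) = Y := Rat.den_div_eq_of_coprime hY hc
    have h2 : ((X : ℚ) / (Y : ℚ)).den = Y.natAbs := by omega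
    rw [h2, Nat.cast_max, Nat.cast_natAbs, Nat.cast_natAbs]
    push_cast
    rfl
  rcases lt_or_gt_of_ne hY with h0 | h0
  · have h1 := key (-X) (-Y) (by omega) (by
      rw [IsCoprime.neg_neg_iff]
      exact h)
    push_cast at h1
    rw [neg_div_neg_eq, abs_neg, abs_neg] at h1
    exact h1
  · exact key X Y h0 h

/-- `X / Y` is close to the point `a`, for coprime integers `X`, `Y` -/
def NearQ (M : ℕ) (X Y : ℤ) : Option ℂ → Prop
  | none => max |(X : ℝ)| |(Y : ℝ)| * |(Y : ℝ)| ^ M ≤ |(X : ℝ)| ^ M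
  | some a => max |(X : ℝ)| |(Y : ℝ)| * ‖(X : ℂ) - a * (Y : ℂ)‖ ^ M ≤ |(Y : ℝ)| ^ M

lemma near_of {M : ℕ} {X Y : ℤ} (hY : Y ≠ 0) (h : IsCoprime X Y) {a : Option ℂ}
    (hn : NearQ M X Y a) : Near (algebraMap ℚ ℂ) M ((X : ℚ) / (Y : ℚ)) a := by
  have hYr : (0 : ℝ) < |(Y : ℝ)| := abs_pos.2 (Int.cast_ne_zero.2 hY)
  have hYc : (Y : ℂ) ≠ 0 := Int.cast_ne_zero.2 hY
  have e : (algebraMap ℚ ℂ) ((X : ℚ) / (Y : ℚ)) = (X : ℂ) / (Y : ℂ) := by
    rw [map_div₀, map_intCast, map_intCast]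
  rcases a with _ | a
  · show mulHeight₁ ((X : ℚ) / (Y : ℚ)) ≤ ‖(algebraMap ℚ ℂ) ((X : ℚ) / (Y : ℚ))‖ ^ M
    rw [height_div hY h, e, norm_div, Complex.norm_intCast, Complex.norm_intCast, div_pow,
      le_div_iff₀ (pow_pos hYr _)]
    exact hn
  · show mulHeight₁ ((X : ℚ) / (Y : ℚ)) * ‖(algebraMap ℚ ℂ) ((X : ℚ) / (Y : ℚ)) - a‖ ^ M ≤ 1
    have e2 : (X : ℂ) / (Y : ℂ) - a = ((X : ℂ) - a * (Y : ℂ)) / (Y : ℂ) := by
      field_simp
    rw [height_div hY h, e, e2, norm_div, Complex.norm_intCast, div_pow, ← mul_div_assoc,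
      div_le_one (pow_pos hYr _)]
    exact hn

/-- the poles of `1 / (A X ^ d + B)` -/
lemma poles {d : ℕ} (hd : 2 ≤ d) {A B : ℤ} (hA : A ≠ 0) (hB : B ≠ 0) (a : Option ℂ)
    (ha : 3 ≤ d ∨ ∀ x, a = some x → (A : ℂ) * x ^ d + B ≠ 0) :
    TwoPoles (1 : ℚ[X]) (C (A : ℚ) * X ^ d + C (B : ℚ)) (algebraMap ℚ ℂ) a := by
  have hAC : (A : ℂ) ≠ 0 := Int.cast_ne_zero.2 hA
  have hBC : (B : ℂ) ≠ 0 := Int.cast_ne_zero.2 hB
  obtain ⟨z, hz⟩ := IsAlgClosed.exists_pow_nat_eq (-(B : ℂ) / A) (by omega : 0 < d)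
  have hz0 : z ≠ 0 := by
    rintro rfl
    rw [zero_pow (by omega)] at hz
    exact div_ne_zero (neg_ne_zero.2 hBC) hAC hz.symm
  have hζ := Complex.isPrimitiveRoot_exp d (by omega)
  obtain ⟨ζ, hζe⟩ : ∃ ζ, ζ = Complex.exp (2 * Real.pi * Complex.I / d) := ⟨_, rfl⟩
  rw [← hζe] at hζ
  have hroot : ∀ i : ℕ, (A : ℂ) * (ζ ^ i * z) ^ d + B = 0 := by
    intro i
    rw [mul_pow, ← pow_mul, mul_comm i d, pow_mul, hζ.pow_eq_one, one_pow, one_mul, hz]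
    field_simp
    ring
  have hpole : ∀ i : ℕ, Pole (1 : ℚ[X]) (C (A : ℚ) * X ^ d + C (B : ℚ)) (algebraMap ℚ ℂ)
      (some (ζ ^ i * z)) := by
    intro i
    show ((C (A : ℚ) * X ^ d + C (B : ℚ)).map (algebraMap ℚ ℂ)).eval (ζ ^ i * z) = 0
    rw [← hroot i]
    simp
  have hne : ∀ i j : ℕ, i < d → j < d → i ≠ j → (some (ζ ^ i * z) : Option ℂ) ≠ some (ζ ^ j * z) := by
    intro i j hi hj hij h
    apply hij
    exact hζ.pow_inj hi hj (mul_right_cancel₀ hz0 (Option.some_injective _ h))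
  rcases ha with h3 | ha
  · by_cases h0 : (some (ζ ^ 0 * z) : Option ℂ) = a
    · exact ⟨_, _, hne 1 2 (by omega) (by omega) (by omega),
        fun h => hne 0 1 (by omega) (by omega) (by omega) (h0.trans h.symm),
        fun h => hne 0 2 (by omega) (by omega) (by omega) (h0.trans h.symm), hpole 1, hpole 2⟩
    · by_cases h1 : (some (ζ ^ 1 * z) : Option ℂ) = a
      · exact ⟨_, _, hne 0 2 (by omega) (by omega) (by omega), h0,
          fun h => hne 1 2 (by omega) (by omega) (by omega) (h1.trans h.symm), hpole 0, hpole 2⟩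
      · exact ⟨_, _, hne 0 1 (by omega) (by omega) (by omega), h0, h1, hpole 0, hpole 1⟩
  · refine ⟨_, _, hne 0 1 (by omega) (by omega) (by omega), ?_, ?_, hpole 0, hpole 1⟩
    · exact fun h => ha _ h.symm (hroot 0)
    · exact fun h => ha _ h.symm (hroot 1)

/-- **one large exponent** -/
theorem fc_large (d : ℕ) (hd : 2 ≤ d) (A B : ℤ) (hA : A ≠ 0) (hB : B ≠ 0) (q : ℕ) (hq : q ≠ 0)
    (P : Finset ℂ) (hP : ∀ x ∈ P, IsAlgebraic ℚ x)
    (hP2 : 3 ≤ d ∨ ∀ x ∈ P, (A : ℂ) * x ^ d + B ≠ 0) (M : ℕ) :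
    ∃ r₀ : ℕ, {T : ℤ × ℤ × ℤ | ∃ (X Y z u : ℤ) (r k : ℕ), r₀ ≤ r ∧ IsCoprime X Y ∧ Y ≠ 0 ∧
      z ≠ 0 ∧ u ∣ (q : ℤ) ^ k ∧ A * X ^ d + B * Y ^ d = u * z ^ r ∧
      (∃ a : Option ℂ, (∀ x, a = some x → x ∈ P) ∧ NearQ M X Y a) ∧
        T = (X ^ d, Y ^ d, u * z ^ r)}.Finite := by
  classical
  obtain ⟨G, hGe⟩ : ∃ G : ℚ[X], G = C (A : ℚ) * X ^ d + C (B : ℚ) := ⟨_, rfl⟩
  have hG : G ≠ 0 := by
    intro h0
    have h1 := congrArg (Polynomial.eval 0) h0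
    rw [hGe, eval_add, eval_mul, eval_C, eval_pow, eval_X, eval_C, eval_zero,
      zero_pow (by omega), mul_zero, zero_add] at h1
    exact hB (by exact_mod_cast h1)
  have hAQ : (A : ℚ) ≠ 0 := Int.cast_ne_zero.2 hA
  have hBQ : (B : ℚ) ≠ 0 := Int.cast_ne_zero.2 hB
  have hqQ : (q : ℚ) ≠ 0 := Nat.cast_ne_zero.2 hq
  obtain ⟨S, hS⟩ : ∃ S : Set (HeightOneSpectrum (𝓞 ℚ)), S = {v | (adv ℚ v).v (A : ℚ) ≠ 0} ∪
    {v | (adv ℚ v).v (B : ℚ) ≠ 0} ∪ {v | (adv ℚ v).v (q : ℚ) ≠ 0} := ⟨_, rfl⟩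
  have hSf : S.Finite := by
    rw [hS]
    exact ((supp_finite hAQ).union (supp_finite hBQ)).union (supp_finite hqQ)
  obtain ⟨r₀, hfin⟩ := param_all (1 : ℚ[X]) G isCoprime_one_left hG P hP S hSf 1 M 1 one_ne_zero le_rfl
  refine ⟨r₀ + 1, ?_⟩
  -- the triples are determined by the quotient
  refine (hfin.image (fun t : ℚ => ((t.num ^ d, (t.den : ℤ) ^ d, A * t.num ^ d + B * (t.den : ℤ) ^ d) :
    ℤ × ℤ × ℤ)) |>.union (hfin.image (fun t : ℚ => (((-t.num) ^ d, (-(t.den : ℤ)) ^ d,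
      A * (-t.num) ^ d + B * (-(t.den : ℤ)) ^ d) : ℤ × ℤ × ℤ)))).subset ?_
  rintro T ⟨X, Y, z, u, r, k, hr, hcop, hY, hz, hu, heq, ⟨a, haP, hnear⟩, rfl⟩
  have hYQ : (Y : ℚ) ≠ 0 := Int.cast_ne_zero.2 hY
  have hu0 : u ≠ 0 := by
    rintro rfl
    have h1 := zero_dvd_iff.1 hu
    exact (pow_ne_zero k (Nat.cast_ne_zero.2 hq)) h1
  have huQ : (u : ℚ) ≠ 0 := Int.cast_ne_zero.2 hu0
  have hzQ : (z : ℚ) ≠ 0 := Int.cast_ne_zero.2 hz
  have hmem : ((X : ℚ) / (Y : ℚ)) ∈ {t : ℚ | (∃ (φ : ℚ →+* ℂ) (a : Option ℂ), (∀ x, a = some x → x ∈ P) ∧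
        TwoPoles (1 : ℚ[X]) G φ a ∧ (Near φ M t a ∨ (a = none ∧ IntN 1 t))) ∧ G.eval t ≠ 0 ∧
      ∃ n : ℕ, r₀ ≤ n ∧ ∀ v ∉ S, (adv ℚ v).v ((1 : ℚ[X]).eval t / G.eval t) < 0 →
        (n : ℤ) ∣ ((1 : ℕ) : ℤ) * (adv ℚ v).v ((1 : ℚ[X]).eval t / G.eval t)} := by
    have hGe' : G.eval ((X : ℚ) / (Y : ℚ)) = (u : ℚ) * (z : ℚ) ^ r / (Y : ℚ) ^ d := by
      rw [hGe, eval_add, eval_mul, eval_C, eval_pow, eval_X, eval_C, eq_div_iff (pow_ne_zero _ hYQ)]
      have h1 : ((A * X ^ d + B * Y ^ d : ℤ) : ℚ) = ((u * z ^ r : ℤ) : ℚ) := by rw [heq]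
      push_cast at h1
      rw [← h1, div_pow]
      field_simp
    have hGne : G.eval ((X : ℚ) / (Y : ℚ)) ≠ 0 := by
      rw [hGe']
      exact div_ne_zero (mul_ne_zero huQ (pow_ne_zero _ hzQ)) (pow_ne_zero _ hYQ)
    refine ⟨⟨algebraMap ℚ ℂ, a, haP, ?_, Or.inl (near_of hY hcop hnear)⟩, hGne, r, by omega, ?_⟩
    · rw [hGe]
      apply poles hd hA hB
      rcases hP2 with h | h
      · exact Or.inl h
      · exact Or.inr fun x hx => h x (haP x hx)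
    · intro v hv hneg
      simp only [hS, Set.mem_union, Set.mem_ofPred_eq, not_or, not_not] at hv
      obtain ⟨⟨vA, vB⟩, vq⟩ := hv
      have hint : ∀ n : ℤ, n ≠ 0 → 0 ≤ (adv ℚ v).v (n : ℚ) := by
        intro n hn
        have := adv_nonneg ℚ v (n : 𝓞 ℚ) (Int.cast_ne_zero.2 hn)
        simpa using this
      have vu : (adv ℚ v).v (u : ℚ) = 0 := by
        obtain ⟨u', hu'⟩ := hu
        have hu'0 : u' ≠ 0 := by
          rintro rfl
          rw [mul_zero] at hu'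
          exact (pow_ne_zero k (Nat.cast_ne_zero.2 hq)) hu'
        have h1 : (adv ℚ v).v ((q : ℚ) ^ k) = (adv ℚ v).v (u : ℚ) + (adv ℚ v).v (u' : ℚ) := by
          rw [← (adv ℚ v).mul' _ _ huQ (Int.cast_ne_zero.2 hu'0)]
          congr 1
          exact_mod_cast congrArg (fun n : ℤ => (n : ℚ)) hu'
        rw [((E_of_ne (w := adv ℚ v) hqQ).pow k).2, vq, mul_zero] at h1
        have h2 := hint u hu0
        have h3 := hint u' hu'0
        omega
      have hval : (adv ℚ v).v ((1 : ℚ[X]).eval ((X : ℚ) / (Y : ℚ)) / G.eval ((X : ℚ) / (Y : ℚ))) =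
          (d : ℤ) * (adv ℚ v).v (Y : ℚ) - (r : ℤ) * (adv ℚ v).v (z : ℚ) := by
        have e1 := ((E_of_ne (w := adv ℚ v) huQ).mul ((E_of_ne (w := adv ℚ v) hzQ).pow r))
        have e2 := (E_of_ne (w := adv ℚ v) hYQ).pow d
        have e3 := e2.div e1
        rw [vu, zero_add] at e3
        have e4 : (1 : ℚ[X]).eval ((X : ℚ) / (Y : ℚ)) / G.eval ((X : ℚ) / (Y : ℚ)) =
            (Y : ℚ) ^ d / ((u : ℚ) * (z : ℚ) ^ r) := by
          rw [eval_one, hGe', one_div_div]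
        rw [e4]
        exact e3.2
      rw [hval] at hneg ⊢
      have hzv : 0 < (adv ℚ v).v (z : ℚ) := by
        have h1 := hint z hz
        have h2 := hint Y hY
        by_contra hcon
        have h3 : (adv ℚ v).v (z : ℚ) = 0 := by omega
        rw [h3, mul_zero, sub_zero] at hneg
        have : (0 : ℤ) ≤ (d : ℤ) * (adv ℚ v).v (Y : ℚ) := by positivity
        omega
      have hYv : (adv ℚ v).v (Y : ℚ) = 0 := by
        by_contra hcon
        have h2 := hint Y hY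
        have hYpos : 1 ≤ (adv ℚ v).v (Y : ℚ) := by omega
        -- then `X` has positive order
        have gY : (adv ℚ v).G 1 (Y : ℚ) := Or.inr hYpos
        have gz : (adv ℚ v).G 1 ((u : ℚ) * (z : ℚ) ^ r) := by
          right
          rw [(adv ℚ v).mul' _ _ huQ (pow_ne_zero _ hzQ), vu,
            ((E_of_ne (w := adv ℚ v) hzQ).pow r).2, zero_add]
          have h4 : (1 : ℤ) ≤ r := by
            have : 1 ≤ r := by omega
            exact_mod_cast this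
          nlinarith
        have gYd : (adv ℚ v).G 1 ((B : ℚ) * (Y : ℚ) ^ d) := by
          right
          rw [(adv ℚ v).mul' _ _ hBQ (pow_ne_zero _ hYQ), vB,
            ((E_of_ne (w := adv ℚ v) hYQ).pow d).2, zero_add]
          have h4 : (1 : ℤ) ≤ d := by exact_mod_cast (by omega : 1 ≤ d)
          nlinarith
        have gX : (adv ℚ v).G 1 ((A : ℚ) * (X : ℚ) ^ d) := by
          have h5 : (A : ℚ) * (X : ℚ) ^ d = (u : ℚ) * (z : ℚ) ^ r - (B : ℚ) * (Y : ℚ) ^ d := by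
            have h1 : ((A * X ^ d + B * Y ^ d : ℤ) : ℚ) = ((u * z ^ r : ℤ) : ℚ) := by rw [heq]
            push_cast at h1
            linarith
          rw [h5]
          exact gz.sub gYd
        have gX1 : (adv ℚ v).G 1 (X : ℚ) := by
          by_cases hX : X = 0
          · left
            rw [hX, Int.cast_zero]
          · have hXQ : (X : ℚ) ≠ 0 := Int.cast_ne_zero.2 hX
            right
            have h6 := gX.resolve_left (mul_ne_zero hAQ (pow_ne_zero _ hXQ))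
            rw [(adv ℚ v).mul' _ _ hAQ (pow_ne_zero _ hXQ), vA,
              ((E_of_ne (w := adv ℚ v) hXQ).pow d).2, zero_add] at h6
            by_contra hcon2
            have h7 := hint X hX
            have h8 : (adv ℚ v).v (X : ℚ) = 0 := by omega
            rw [h8, mul_zero] at h6
            omega
        obtain ⟨s, t, hst⟩ := hcop
        have hG0 : ∀ n : ℤ, (adv ℚ v).G 0 (n : ℚ) := by
          intro n
          by_cases hn : n = 0
          · left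
            rw [hn, Int.cast_zero]
          · exact Or.inr (hint n hn)
        have h9 : (adv ℚ v).G 1 ((s : ℚ) * (X : ℚ) + (t : ℚ) * (Y : ℚ)) := by
          have ha := (hG0 s).mul gX1
          have hb := (hG0 t).mul gY
          rw [zero_add] at ha hb
          exact ha.add hb
        have h10 : (s : ℚ) * (X : ℚ) + (t : ℚ) * (Y : ℚ) = 1 := by exact_mod_cast hst
        rw [h10] at h9
        have h11 := h9.resolve_left one_ne_zero
        have h12 : (adv ℚ v).v (1 : ℚ) = 0 := by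
          show -WithZero.log (v.valuation ℚ 1) = 0
          simp
        omega
      rw [hYv, mul_zero, zero_sub, Nat.cast_one, one_mul]
      exact (Dvd.intro _ rfl : (r : ℤ) ∣ (r : ℤ) * (adv ℚ v).v (z : ℚ)).neg_right
  -- the triple
  have hc : Nat.Coprime X.natAbs Y.natAbs := Int.isCoprime_iff_gcd_eq_one.1 hcop
  rcases lt_or_gt_of_ne hY with h0 | h0
  · right
    refine ⟨(X : ℚ) / (Y : ℚ), hmem, ?_⟩
    have hc' : Nat.Coprime (-X).natAbs (-Y).natAbs := by rwa [Int.natAbs_neg, Int.natAbs_neg]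
    have e0 : (X : ℚ) / (Y : ℚ) = ((-X : ℤ) : ℚ) / ((-Y : ℤ) : ℚ) := by
      push_cast
      rw [neg_div_neg_eq]
    have e1 : ((X : ℚ) / (Y : ℚ)).num = -X := by
      rw [e0]
      exact Rat.num_div_eq_of_coprime (by omega) hc'
    have e2 : (((X : ℚ) / (Y : ℚ)).den : ℤ) = -Y := by
      rw [e0]
      exact Rat.den_div_eq_of_coprime (by omega) hc'
    simp only [e1, e2, neg_neg]
    rw [heq]
  · left
    refine ⟨(X : ℚ) / (Y : ℚ), hmem, ?_⟩
    have e1 : ((X : ℚ) / (Y : ℚ)).num = X := Rat.num_div_eq_of_coprime h0 hc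
    have e2 : (((X : ℚ) / (Y : ℚ)).den : ℤ) = Y := Rat.den_div_eq_of_coprime h0 hc
    simp only [e1, e2]
    rw [heq]

/-- **a large common factor** -/
theorem fc_size (A B : ℤ) (hA : A ≠ 0) (hB : B ≠ 0) (N : ℕ) :
    ∃ d₀ : ℕ, ∀ d, d₀ ≤ d → ∀ X Y : ℤ, A * X ^ d + B * Y ^ d ≠ 0 →
      (max |(X : ℝ)| |(Y : ℝ)| ^ d) ^ (N - 1) ≤ |((A * X ^ d + B * Y ^ d : ℤ) : ℝ)| ^ N := by
  obtain ⟨g, hg⟩ : ∃ g : ℤ[X], g = C A * X + C B := ⟨_, rfl⟩
  have hdeg : g.natDegree = 1 := by rw [hg]; exact natDegree_linear hA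
  have hc0 : g.coeff 0 = B := by rw [hg]; simp
  have hc1 : g.coeff 1 = A := by
    rw [hg, coeff_add, coeff_C_mul, coeff_X_one, mul_one, coeff_C_of_ne_zero one_ne_zero, add_zero]
  have hsq : (g.map (Int.castRingHom ℚ)).Separable := by
    have hAQ : (A : ℚ) ≠ 0 := Int.cast_ne_zero.2 hA
    have : g.map (Int.castRingHom ℚ) = C (A : ℚ) * (X - C (-(B : ℚ) / A)) := by
      rw [hg, Polynomial.map_add, Polynomial.map_mul, Polynomial.map_C, Polynomial.map_X,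
        Polynomial.map_C, mul_sub, ← C_mul]
      have e : (A : ℚ) * (-(B : ℚ) / A) = -B := by field_simp
      rw [e, C_neg, sub_neg_eq_add]
      rfl
    rw [this]
    exact (separable_X_sub_C).unit_mul (isUnit_C.2 hAQ.isUnit)
  obtain ⟨κ, n₀, c, hc, hc1', hlow⟩ := ES.form_lower g hsq (by rw [hc0]; exact hB) (by rw [hdeg])
  obtain ⟨C₀, hC₀⟩ := exists_two_pow (1 / c)
  obtain ⟨g2, hg2⟩ := ((PolyB.const (2 * N)).mul ((PolyB.id.pow κ).add (PolyB.const C₀))).le_two_pow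
  refine ⟨n₀ + 2 ^ (g2 + 2), ?_⟩
  intro d hd X Y hne
  obtain ⟨w, hw⟩ : ∃ w : ℤ, w = A * X ^ d + B * Y ^ d := ⟨_, rfl⟩
  rw [← hw] at hne ⊢
  have hd1 : 1 ≤ d := le_trans (le_trans Nat.one_le_two_pow (Nat.le_add_left _ _)) hd
  have hw1 : (1 : ℝ) ≤ |(w : ℝ)| := by exact_mod_cast Int.one_le_abs hne
  obtain ⟨M, hM⟩ : ∃ M : ℕ, M = max X.natAbs Y.natAbs := ⟨_, rfl⟩
  have hMR : max |(X : ℝ)| |(Y : ℝ)| = (M : ℝ) := by
    rw [hM, Nat.cast_max, Nat.cast_natAbs, Nat.cast_natAbs]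
    push_cast
    rfl
  rw [hMR]
  by_cases hM1 : M ≤ 1
  · have h1 : (M : ℝ) ≤ 1 := by exact_mod_cast hM1
    calc ((M : ℝ) ^ d) ^ (N - 1) ≤ 1 := pow_le_one₀ (by positivity) (pow_le_one₀ (by positivity) h1)
      _ ≤ |(w : ℝ)| ^ N := one_le_pow₀ hw1
  have hM2 : 2 ≤ M := by omega
  have hMr : (1 : ℝ) ≤ M := by exact_mod_cast (by omega : 1 ≤ M)
  have hMr2 : (2 : ℝ) ≤ M := by exact_mod_cast hM2
  have hpv : ES.pval g d X Y = w := by
    unfold ES.pval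
    rw [hdeg, Finset.sum_range_succ, Finset.sum_range_one, hc0, hc1, hw]
    simp
    ring
  have habs : |X| = M ∨ |Y| = M := by
    rw [hM, Nat.cast_max, Int.natCast_natAbs, Int.natCast_natAbs]
    rcases le_total |X| |Y| with h | h
    · right
      rw [max_eq_right h]
    · left
      rw [max_eq_left h]
  obtain ⟨s, hs⟩ : ∃ s, s = Nat.size d := ⟨_, rfl⟩
  have h1 := hlow d (le_trans (Nat.le_add_right _ _) hd) X Y M hM2
    (by rw [hM, Nat.cast_max, Int.natCast_natAbs, Int.natCast_natAbs]; exact le_max_left _ _)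
    (by rw [hM, Nat.cast_max, Int.natCast_natAbs, Int.natCast_natAbs]; exact le_max_right _ _)
    habs (by rw [hpv]; exact hne)
  rw [hpv, hdeg, one_mul, ← hs] at h1
  have hsg : g2 + 2 < s := by
    rw [hs, Nat.lt_size]
    exact le_trans (Nat.le_add_left _ _) hd
  have h2sd : 2 ^ (s - 1) ≤ d := by
    rw [← Nat.lt_size, ← hs]
    omega
  have hpoly : N * (s ^ κ + C₀) ≤ d := by
    have h2 : 2 * N * (s ^ κ + C₀) ≤ 2 ^ s := hg2 s (by omega)
    have h3 : 2 ^ s = 2 * 2 ^ (s - 1) := by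
      rw [← pow_succ']
      congr 1
      omega
    rw [h3] at h2
    have h4 : 2 * (N * (s ^ κ + C₀)) ≤ 2 * 2 ^ (s - 1) := by linarith
    omega
  have h2 : (M : ℝ) ^ d ≤ |(w : ℝ)| * (M : ℝ) ^ (s ^ κ + C₀) := by
    have h3 : (M : ℝ) ^ d ≤ (1 / c) * (|(w : ℝ)| * (M : ℝ) ^ (s ^ κ)) := by
      rw [one_div, ← div_eq_inv_mul, le_div_iff₀ hc, mul_comm]
      exact h1
    have h4 : (1 / c) ≤ (M : ℝ) ^ C₀ := hC₀.trans (pow_le_pow_left₀ (by norm_num) hMr2 _)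
    calc (M : ℝ) ^ d ≤ (1 / c) * (|(w : ℝ)| * (M : ℝ) ^ (s ^ κ)) := h3
      _ ≤ (M : ℝ) ^ C₀ * (|(w : ℝ)| * (M : ℝ) ^ (s ^ κ)) :=
          mul_le_mul_of_nonneg_right h4 (by positivity)
      _ = _ := by rw [pow_add]; ring
  have h3 : ((M : ℝ) ^ d) ^ N ≤ |(w : ℝ)| ^ N * (M : ℝ) ^ d := by
    calc ((M : ℝ) ^ d) ^ N ≤ (|(w : ℝ)| * (M : ℝ) ^ (s ^ κ + C₀)) ^ N :=
          pow_le_pow_left₀ (by positivity) h2 _
      _ = |(w : ℝ)| ^ N * (M : ℝ) ^ (N * (s ^ κ + C₀)) := by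
          rw [mul_pow, ← pow_mul, mul_comm (s ^ κ + C₀)]
      _ ≤ |(w : ℝ)| ^ N * (M : ℝ) ^ d := by
          apply mul_le_mul_of_nonneg_left _ (by positivity)
          exact pow_le_pow_right₀ hMr hpoly
  rcases Nat.eq_zero_or_pos N with hN | hN
  · rw [hN]
    simp
  · have h4 : ((M : ℝ) ^ d) ^ N = ((M : ℝ) ^ d) ^ (N - 1) * (M : ℝ) ^ d := by
      rw [← pow_succ]
      congr 1
      omega
    rw [h4] at h3
    exact le_of_mul_le_mul_right h3 (by positivity)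

end Run7.h197.N
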